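import Pool.Agent.Lib.MP_b07a76_an.IMain

namespace Pool.Agent.Results.MP_b07a76_an.AlmgrenInterp

open Pool.Agent.Lib.MP_b07a76_an

theorem result {V : Type} [NormedAddCommGroup V] [InnerProductSpace ℝ V] [FiniteDimensional ℝ V]
    [MeasurableSpace V] [BorelSpace V] (d m : ℕ) (hm : 2 ≤ m)
    (hV : Module.finrank ℝ V = d * m) (α β γ : Fin m → Fin m → Fin d → ℝ)
    (hα : MinimalAngle (V := V) AlmgrenCompetitor α)
    (_hβ : MinimalAngle (V := V) AlmgrenCompetitor β) (hγ : IsAngleDatum V γ)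
    (hle : ∀ i j, i < j → ∀ k, α i j k ≤ γ i j k)
    (_hle' : ∀ i j, i < j → ∀ k, γ i j k ≤ β i j k) (hne : ∀ i j, i < j → α i j ≠ 0)
    (hdom : ∀ i j, i < j → ∀ k, 2 * (m - 2 : ℝ) * Real.cos (α i j k) < 1) :
    MinimalAngle (V := V) AlmgrenCompetitor γ :=
  alm_interp hm hV hα hγ hle hne hdom

end Pool.Agent.Results.MP_b07a76_an.AlmgrenInterp
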