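import Pool.Agent.Lib.MP_b07a76_an.NMain

namespace Pool.Agent.Results.MP_b07a76_an.TopNeg

open Pool.Agent.Lib.MP_b07a76_an

theorem result : ∃ d m : ℕ, 4 ≤ d ∧ 2 ≤ m ∧ ∃ α β γ : Fin m → Fin m → Fin d → ℝ,
    MinimalAngle (V := EuclideanSpace ℝ (Fin (d * m))) (TopCompetitor d) α ∧
    MinimalAngle (V := EuclideanSpace ℝ (Fin (d * m))) (TopCompetitor d) β ∧
    IsAngleDatum (EuclideanSpace ℝ (Fin (d * m))) γ ∧
    (∀ i j, i < j → ∀ k, α i j k ≤ γ i j k ∧ γ i j k ≤ β i j k) ∧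
    (∀ i j, i < j → ∀ k : Fin d, d ≤ k + 4 → Real.pi / 3 ≤ α i j k) ∧
    ¬ MinimalAngle (V := EuclideanSpace ℝ (Fin (d * m))) (TopCompetitor d) γ ∧
    ∀ P : Fin m → Submodule ℝ (EuclideanSpace ℝ (Fin (d * m))), Realises P γ →
      ¬ IsMinimal d (TopCompetitor d) (⋃ i, (P i : Set (EuclideanSpace ℝ (Fin (d * m))))) := by
  obtain ⟨d, m, hd, hm, α, β, γ, h1, h2, h3, h4, h5, h6⟩ := interp_fails
  refine ⟨d, m, hd, hm, α, β, γ, h1.1, h2.1, h3, h4, h5, fun h => ?_, fun P hP => (h6 P hP).1⟩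
  obtain ⟨P, hP⟩ := h3.2
  exact (h6 P hP).1 (h.2 P hP)

end Pool.Agent.Results.MP_b07a76_an.TopNeg
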